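import Pool.Agent.H5.CHE.WGS

/-!
# Row WGA of the board `chs_modules`: structures of linear NLC-width 2 are generated
-/

set_option autoImplicit false

open Classical Pool.Agent.H8.VR Pool.Agent.H69.VR Pool.Agent.H46.CH

namespace Pool.Agent.H5.CHE

section

variable {A : Type} {m : ℕ}

/-- the bits of a family of propositions -/
noncomputable def bt (p : ℕ → Prop) : Fin m → Bool := fun i => decide (p i)

theorem wb_bt (p : ℕ → Prop) (i : ℕ) (hi : i < m) : wb (bt p : Fin m → Bool) i ↔ p i := by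
  unfold wb bt
  constructor
  · rintro ⟨h, h'⟩
    exact of_decide_eq_true h'
  · intro h
    exact ⟨hi, decide_eq_true h⟩

/-- one-element structures -/
theorem gen_pt (P : ℕ → A → Prop) (R : ℕ → A → A → Prop) (s : Fin 6) (k : Fin 3)
    (V : Fin 2 → (Fin m → Bool) × (Fin m → Bool)) (a : Fin 2)
    (h : (s, k) = (0, 1) ∨ (s, k) = (1, 0) ∨ (s, k) = (2, 2) ∨
      (s, k) = (3, 0) ∨ (s, k) = (4, 2) ∨ (s, k) = (5, 0)) (b : A) (c : A → WQ m)
    (hc : c b = (V, a, k)) : (wG m).Gen m P R s {b} c :=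
  Gram.Gen.pt (G := wG m) (m := m) (P := P) (R := R)
    { s := s, q := (V, a, k), un := wb (bt fun i => P i b), lp := wb (bt fun i => R i b b) }
    (pts_mem s k V a _ _ h) b c hc (fun i hi => (wb_bt (fun i => P i b) i hi).symm)
    (fun i hi => (wb_bt (fun i => R i b b) i hi).symm)

/-- the state of the construction -/
structure Iv (P : ℕ → A → Prop) (R : ℕ → A → A → Prop) (Y₀ Y₁ : Set A) (c₀ c₁ : A → WQ m)
    (π : Equiv.Perm (Fin 2)) (c : A → Fin 2) : Prop where
  ne : Y₀.Nonempty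
  dj : Disjoint Y₀ Y₁
  g0 : (wG m).Gen m P R 0 Y₀ c₀
  g1 : Y₁ = ∅ ∨ (wG m).Gen m P R 1 Y₁ c₁
  kd : ∀ y ∈ Y₁, (c₁ y).2.2 = 0
  e0 : ∀ x ∈ Y₀, c x = π (wc (c₀ x))
  e1 : ∀ y ∈ Y₁, c y = π (c₁ y).2.1
  rl : ∀ x ∈ Y₀, ∀ y ∈ Y₁, ∀ i < m,
    (R i x y ↔ wb ((c₁ y).1 (wc (c₀ x))).1 i) ∧ (R i y x ↔ wb ((c₁ y).1 (wc (c₀ x))).2 i)

/-- the operations -/
theorem op_mem₁ :
    ({ s := 1, t := 3, u := 1, l := fun i p q => wb (q.1 p.2.1).1 i,
       r := fun i p q => wb (q.1 p.2.1).2 i, f := id, g := id, D := {n | 0 < n} } :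
      Op (Fin 6) (WQ m)) ∈ (wG m).ops := by
  unfold wG
  exact List.mem_cons_self

theorem op_mem₂ :
    ({ s := 1, t := 4, u := 2, l := fun i p q => wb (q.1 p.2.1).1 i,
       r := fun i p q => wb (q.1 p.2.1).2 i, f := id, g := id, D := {n | 0 < n} } :
      Op (Fin 6) (WQ m)) ∈ (wG m).ops := by
  unfold wG
  exact List.mem_cons_of_mem _ List.mem_cons_self

theorem op_mem₃ :
    ({ s := 0, t := 2, u := 0, l := fun i p q => wb (q.1 (wc p)).1 i,
       r := fun i p q => wb (q.1 (wc p)).2 i,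
       f := fun p => (p.1, p.2.1, if p.2.2 = 1 then 0 else p.2.2),
       g := fun p => (p.1, p.2.1, if p.2.2 = 2 then 1 else p.2.2), D := {n | 0 < n} } :
      Op (Fin 6) (WQ m)) ∈ (wG m).ops := by
  unfold wG
  exact List.mem_cons_of_mem _ (List.mem_cons_of_mem _ List.mem_cons_self)

theorem op_mem₄ :
    ({ s := 0, t := 2, u := 5, l := fun i p q => wb (q.1 (wc p)).1 i,
       r := fun i p q => wb (q.1 (wc p)).2 i,
       f := fun p => (p.1, p.2.1, if p.2.2 = 1 then 0 else p.2.2),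
       g := fun p => (p.1, p.2.1, if p.2.2 = 2 then 1 else p.2.2), D := {n | 0 < n} } :
      Op (Fin 6) (WQ m)) ∈ (wG m).ops := by
  unfold wG
  exact List.mem_cons_of_mem _ (List.mem_cons_of_mem _ (List.mem_cons_of_mem _
    List.mem_cons_self))

theorem op_mem₅ :
    ({ s := 0, t := 1, u := 5, l := fun i p q => wb (q.1 (wc p)).1 i,
       r := fun i p q => wb (q.1 (wc p)).2 i,
       f := fun p => (p.1, p.2.1, if p.2.2 = 1 then 0 else p.2.2),
       g := fun p => (p.1, p.2.1, if p.2.2 = 2 then 1 else p.2.2), D := {n | 0 < n} } :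
      Op (Fin 6) (WQ m)) ∈ (wG m).ops := by
  unfold wG
  exact List.mem_cons_of_mem _ (List.mem_cons_of_mem _ (List.mem_cons_of_mem _
    (List.mem_cons_of_mem _ List.mem_cons_self)))

/-- an element is added to a right part -/
theorem add_right (P : ℕ → A → Prop) (R : ℕ → A → A → Prop) [Finite A] (Y : Set A) (b : A)
    (c₁ : A → WQ m) (q : WQ m) (u : Fin 6) (k : Fin 3) (hu : (u, k) = (1, 0) ∨ (u, k) = (2, 2))
    (hq : q.2.2 = k) (hb : b ∉ Y) (h : Y = ∅ ∨ (wG m).Gen m P R 1 Y c₁)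
    (hR : ∀ y ∈ Y, ∀ i < m, (R i y b ↔ wb (q.1 (c₁ y).2.1).1 i) ∧
      (R i b y ↔ wb (q.1 (c₁ y).2.1).2 i)) :
    (wG m).Gen m P R u (Y ∪ {b}) (Function.update c₁ b q) := by
  have hcb : Function.update c₁ b q b = (q.1, q.2.1, k) := by
    rw [Function.update_self, ← hq]
  rcases h with rfl | h
  · rw [Set.empty_union]
    refine gen_pt P R u k q.1 q.2.1 ?_ b _ hcb
    rcases hu with hu | hu
    · exact Or.inr (Or.inl hu)
    · exact Or.inr (Or.inr (Or.inl hu))
  · by_cases hY : Y = ∅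
    · subst hY
      rw [Set.empty_union]
      refine gen_pt P R u k q.1 q.2.1 ?_ b _ hcb
      rcases hu with hu | hu
      · exact Or.inr (Or.inl hu)
      · exact Or.inr (Or.inr (Or.inl hu))
    · have hpos : 0 < Y.ncard := by
        rw [Set.ncard_pos Y.toFinite]
        exact Set.nonempty_iff_ne_empty.2 hY
      have hd : Disjoint Y {b} := Set.disjoint_singleton_right.2 hb
      have hup : ∀ y ∈ Y, Function.update c₁ b q y = c₁ y := fun y hy =>
        Function.update_of_ne (fun e : y = b => hb (e ▸ hy)) _ _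
      rcases hu with hu | hu
      · obtain ⟨rfl, rfl⟩ := Prod.mk.inj hu
        have hg : (wG m).Gen m P R 3 {b} (Function.update c₁ b q) :=
          gen_pt P R 3 0 q.1 q.2.1 (Or.inr (Or.inr (Or.inr (Or.inl rfl)))) b _ hcb
        refine Gram.Gen.op (G := wG m) (m := m) (P := P) (R := R) _ op_mem₁ Y {b} _ c₁ _ h hg hd
          (pair_pos hpos) ?_ hup (fun _ _ => rfl)
        rintro a ha b' rfl i hi
        change (R i a b' ↔ wb ((Function.update c₁ b' q b').1 _).1 i) ∧
          (R i b' a ↔ wb ((Function.update c₁ b' q b').1 _).2 i)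
        rw [Function.update_self]
        exact hR a ha i hi
      · obtain ⟨rfl, rfl⟩ := Prod.mk.inj hu
        have hg : (wG m).Gen m P R 4 {b} (Function.update c₁ b q) :=
          gen_pt P R 4 2 q.1 q.2.1 (Or.inr (Or.inr (Or.inr (Or.inr (Or.inl rfl))))) b _ hcb
        refine Gram.Gen.op (G := wG m) (m := m) (P := P) (R := R) _ op_mem₂ Y {b} _ c₁ _ h hg hd
          (pair_pos hpos) ?_ hup (fun _ _ => rfl)
        rintro a ha b' rfl i hi
        change (R i a b' ↔ wb ((Function.update c₁ b' q b').1 _).1 i) ∧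
          (R i b' a ↔ wb ((Function.update c₁ b' q b').1 _).2 i)
        rw [Function.update_self]
        exact hR a ha i hi

/-- a map of a set of two elements into itself is bijective or constant -/
theorem bij_or_const : ∀ f : Fin 2 → Fin 2, f.Bijective ∨ f 0 = f 1 := by
  intro f
  by_cases h : f 0 = f 1
  · exact Or.inr h
  · left
    rw [← Finite.injective_iff_bijective]
    intro a b hab
    by_contra hne
    apply h
    have ha : a = 0 ∨ a = 1 := by omega
    have hb : b = 0 ∨ b = 1 := by omega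
    rcases ha with rfl | rfl <;> rcases hb with rfl | rfl
    · exact absurd rfl hne
    · exact hab
    · exact hab.symm
    · exact absurd rfl hne

/-- every structure of linear NLC-width 2 has a state -/
theorem lnlc_iv [Finite A] (P : ℕ → A → Prop) (R : ℕ → A → A → Prop) {X : Set A} {c : A → Fin 2}
    (h : LNLC 2 m R X c) : ∃ (Y₀ Y₁ : Set A) (c₀ c₁ : A → WQ m) (π : Equiv.Perm (Fin 2)),
      X = Y₀ ∪ Y₁ ∧ Iv P R Y₀ Y₁ c₀ c₁ π c := by
  induction h with
  | pt a c =>
    refine ⟨{a}, ∅, fun _ => (fun _ => (fun _ => false, fun _ => false), c a, 1),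
      fun _ => (fun _ => (fun _ => false, fun _ => false), 0, 0), Equiv.refl _,
      (Set.union_empty _).symm, ⟨a, rfl⟩, Set.disjoint_empty _, ?_, Or.inl rfl,
      fun y hy => absurd hy (Set.notMem_empty y), ?_, fun y hy => absurd hy (Set.notMem_empty y),
      fun x _ y hy => absurd hy (Set.notMem_empty y)⟩
    · exact gen_pt P R 0 1 _ (c a) (Or.inl rfl) a _ rfl
    · rintro x rfl
      rfl
  | op X b c c₁ h₁ hb l r f hR hX ih =>
    obtain ⟨Y₀, Y₁, d₀, d₁, π, rfl, iv⟩ := ih
    have hb0 : b ∉ Y₀ := fun h => hb (Or.inl h)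
    have hb1 : b ∉ Y₁ := fun h => hb (Or.inr h)
    obtain ⟨V, hV⟩ : ∃ V : Fin 2 → (Fin m → Bool) × (Fin m → Bool),
        V = fun a => (bt fun i => l i (π a), bt fun i => r i (π a)) := ⟨_, rfl⟩
    have hV1 : ∀ a, ∀ i < m, wb (V a).1 i ↔ l i (π a) := fun a i hi => by
      rw [hV]
      exact wb_bt (fun i => l i (π a)) i hi
    have hV2 : ∀ a, ∀ i < m, wb (V a).2 i ↔ r i (π a) := fun a i hi => by
      rw [hV]
      exact wb_bt (fun i => r i (π a)) i hi
    have hR0 : ∀ x ∈ Y₀, ∀ i < m, (R i x b ↔ wb (V (wc (d₀ x))).1 i) ∧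
        (R i b x ↔ wb (V (wc (d₀ x))).2 i) := by
      intro x hx i hi
      rw [hV1 _ i hi, hV2 _ i hi, ← iv.e0 x hx]
      exact hR x (Or.inl hx) i hi
    have hR1 : ∀ y ∈ Y₁, ∀ i < m, (R i y b ↔ wb (V (d₁ y).2.1).1 i) ∧
        (R i b y ↔ wb (V (d₁ y).2.1).2 i) := by
      intro y hy i hi
      rw [hV1 _ i hi, hV2 _ i hi, ← iv.e1 y hy]
      exact hR y (Or.inr hy) i hi
    rcases bij_or_const f with hf | hf
    · obtain ⟨π', hπ'⟩ : ∃ π' : Equiv.Perm (Fin 2), ∀ a, π' a = f (π a) :=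
        ⟨π.trans (Equiv.ofBijective f hf), fun _ => rfl⟩
      obtain ⟨q, hq⟩ : ∃ q : WQ m, q = (V, π'.symm (c b), 0) := ⟨_, rfl⟩
      have hg := add_right P R Y₁ b d₁ q 1 0 (Or.inl rfl) (by rw [hq]) hb1 iv.g1
        (by rw [hq]; exact hR1)
      have hup : ∀ y ∈ Y₁, Function.update d₁ b q y = d₁ y := fun y hy =>
        Function.update_of_ne (fun e : y = b => hb1 (e ▸ hy)) _ _
      refine ⟨Y₀, Y₁ ∪ {b}, d₀, Function.update d₁ b q, π', Set.union_assoc _ _ _, iv.ne, ?_,
        iv.g0, Or.inr hg, ?_, ?_, ?_, ?_⟩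
      · exact Set.disjoint_union_right.2 ⟨iv.dj, Set.disjoint_singleton_right.2 hb0⟩
      · rintro y (hy | rfl)
        · rw [hup y hy]
          exact iv.kd y hy
        · rw [Function.update_self, hq]
      · intro x hx
        rw [hX x (Or.inl hx), iv.e0 x hx, hπ']
      · rintro y (hy | rfl)
        · rw [hX y (Or.inr hy), iv.e1 y hy, hπ', hup y hy]
        · rw [Function.update_self, hq]
          exact (π'.apply_symm_apply _).symm
      · rintro x hx y (hy | rfl) i hi
        · rw [hup y hy]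
          exact iv.rl x hx y hy i hi
        · rw [Function.update_self, hq]
          exact hR0 x hx i hi
    · have hconst : ∀ a, f a = f 0 := by
        intro a
        have ha : a = 0 ∨ a = 1 := by omega
        rcases ha with rfl | rfl
        · rfl
        · exact hf.symm
      obtain ⟨π', hπ'⟩ : ∃ π' : Equiv.Perm (Fin 2), π' 0 = f 0 :=
        ⟨Equiv.swap 0 (f 0), Equiv.swap_apply_left _ _⟩
      obtain ⟨q, hq⟩ : ∃ q : WQ m, q = (V, π'.symm (c b), 2) := ⟨_, rfl⟩
      have hg := add_right P R Y₁ b d₁ q 2 2 (Or.inr rfl) (by rw [hq]) hb1 iv.g1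
        (by rw [hq]; exact hR1)
      have hup : ∀ y ∈ Y₁, Function.update d₁ b q y = d₁ y := fun y hy =>
        Function.update_of_ne (fun e : y = b => hb1 (e ▸ hy)) _ _
      have hd : Disjoint Y₀ (Y₁ ∪ {b}) :=
        Set.disjoint_union_right.2 ⟨iv.dj, Set.disjoint_singleton_right.2 hb0⟩
      have hpos : 0 < Y₀.ncard := by
        rw [Set.ncard_pos Y₀.toFinite]
        exact iv.ne
      obtain ⟨e, he⟩ : ∃ e : A → WQ m, e = fun a =>
          if a ∈ Y₀ then ((d₀ a).1, (d₀ a).2.1, if (d₀ a).2.2 = 1 then 0 else (d₀ a).2.2)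
          else ((Function.update d₁ b q a).1, (Function.update d₁ b q a).2.1,
            if (Function.update d₁ b q a).2.2 = 2 then 1
            else (Function.update d₁ b q a).2.2) := ⟨_, rfl⟩
      have he0 : ∀ x ∈ Y₀, e x =
          ((d₀ x).1, (d₀ x).2.1, if (d₀ x).2.2 = 1 then 0 else (d₀ x).2.2) := fun x hx => by
        rw [he]
        exact if_pos hx
      have he1 : ∀ y ∈ Y₁ ∪ {b}, e y = ((Function.update d₁ b q y).1,
          (Function.update d₁ b q y).2.1, if (Function.update d₁ b q y).2.2 = 2 then 1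
            else (Function.update d₁ b q y).2.2) := fun y hy => by
        rw [he]
        exact if_neg fun h => Set.disjoint_left.1 hd h hy
      have hG : (wG m).Gen m P R 0 (Y₀ ∪ (Y₁ ∪ {b})) e := by
        refine Gram.Gen.op (G := wG m) (m := m) (P := P) (R := R) _ op_mem₃ Y₀ (Y₁ ∪ {b}) e d₀
          (Function.update d₁ b q) iv.g0 hg hd (pair_pos hpos) ?_ he0 he1
        rintro x hx y (hy | rfl) i hi
        · rw [hup y hy]
          exact iv.rl x hx y hy i hi
        · rw [Function.update_self, hq]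
          exact hR0 x hx i hi
      refine ⟨Y₀ ∪ (Y₁ ∪ {b}), ∅, e, d₁, π', ?_, ?_, Set.disjoint_empty _, hG, Or.inl rfl,
        fun y hy => absurd hy (Set.notMem_empty y), ?_,
        fun y hy => absurd hy (Set.notMem_empty y),
        fun x _ y hy => absurd hy (Set.notMem_empty y)⟩
      · rw [Set.union_empty, Set.union_assoc]
      · exact iv.ne.mono Set.subset_union_left
      · rintro x (hx | hx | hx)
        · rw [hX x (Or.inl hx), hconst, ← hπ', he0 x hx]
          unfold wc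
          by_cases hk : (d₀ x).2.2 = 1
          · simp [hk]
          · simp [hk]
        · rw [hX x (Or.inr hx), hconst, ← hπ', he1 x (Or.inl hx), hup x hx, iv.kd x hx]
          unfold wc
          simp
        · rw [Set.mem_singleton_iff] at hx
          subst hx
          rw [he1 x (Or.inr rfl), Function.update_self, hq]
          unfold wc
          simp

/-- the result of sort 5 -/
theorem gen_zero_five [Finite A] (P : ℕ → A → Prop) (R : ℕ → A → A → Prop) {s : Fin 6}
    {X : Set A} {c : A → WQ m} (h : (wG m).Gen m P R s X c) (hs : s = 0) :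
    ∃ c', (wG m).Gen m P R 5 X c' := by
  cases h with
  | pt x hx a c hc hP hR =>
    exact ⟨fun _ => (fun _ => (fun _ => false, fun _ => false), 0, 0),
      gen_pt P R 5 0 _ 0 (Or.inr (Or.inr (Or.inr (Or.inr (Or.inr rfl))))) a _ rfl⟩
  | op o ho X Y c c₁ c₂ h₁ h₂ hd hD hR hX hY =>
    unfold wG at ho
    simp only [List.mem_cons, List.not_mem_nil, or_false] at ho
    rcases ho with rfl | rfl | rfl | rfl | rfl
    · exact absurd (show (1 : Fin 6) = 0 from hs) (by decide)
    · exact absurd (show (2 : Fin 6) = 0 from hs) (by decide)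
    · exact ⟨c, Gram.Gen.op (G := wG m) (m := m) (P := P) (R := R) _ op_mem₄ X Y c c₁ c₂ h₁ h₂ hd
        hD hR hX hY⟩
    · exact absurd (show (5 : Fin 6) = 0 from hs) (by decide)
    · exact absurd (show (5 : Fin 6) = 0 from hs) (by decide)

end

/-- WGA -/
theorem pf_WGA : Pool.Agent.H46.CH.T_WGA := by
  rintro m A _ P R ⟨c, hc⟩
  obtain ⟨Y₀, Y₁, c₀, c₁, π, hX, iv⟩ := lnlc_iv P R hc
  rcases iv.g1 with h | h
  · rw [h, Set.union_empty] at hX
    have hg := iv.g0
    rw [← hX] at hg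
    exact gen_zero_five P R hg rfl
  · have hpos : 0 < Y₀.ncard := by
      rw [Set.ncard_pos Y₀.toFinite]
      exact iv.ne
    obtain ⟨e, he⟩ : ∃ e : A → WQ m, e = fun a =>
        if a ∈ Y₀ then ((c₀ a).1, (c₀ a).2.1, if (c₀ a).2.2 = 1 then 0 else (c₀ a).2.2)
        else ((c₁ a).1, (c₁ a).2.1, if (c₁ a).2.2 = 2 then 1 else (c₁ a).2.2) := ⟨_, rfl⟩
    refine ⟨e, ?_⟩
    rw [hX]
    refine Gram.Gen.op (G := wG m) (m := m) (P := P) (R := R) _ op_mem₅ Y₀ Y₁ e c₀ c₁ iv.g0 h
      iv.dj (pair_pos hpos) iv.rl ?_ ?_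
    · intro x hx
      rw [he]
      exact if_pos hx
    · intro y hy
      rw [he]
      exact if_neg fun h' => Set.disjoint_left.1 iv.dj h' hy

end Pool.Agent.H5.CHE
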