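import Pool.Agent.H5.CHE.WGS

/-!
# Row WGB of the board `chs_modules`: only structures of linear NLC-width 2 are generated
-/

set_option autoImplicit false

open Classical Pool.Agent.H8.VR Pool.Agent.H69.VR Pool.Agent.H46.CH

namespace Pool.Agent.H5.CHE

/-- the kinds of the one-element structures -/
theorem kind_of : ∀ (s : Fin 6) (k : Fin 3), ((s, k) = (0, 1) ∨ (s, k) = (1, 0) ∨
    (s, k) = (2, 2) ∨ (s, k) = (3, 0) ∨ (s, k) = (4, 2) ∨ (s, k) = (5, 0)) →
    (s = 0 → k = 1) ∧ (s = 1 → k = 0) ∧ (s = 2 → k = 2) ∧ (s = 3 → k = 0) ∧ (s = 4 → k = 2) := by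
  decide

section

variable {A : Type} {m : ℕ} (R : ℕ → A → A → Prop)

/-- the relations between the old elements with the colours `c'` and the elements of `Y` -/
def Rl (X Y : Set A) (c' : A → Fin 2) (c : A → WQ m) : Prop :=
  ∀ x ∈ X, ∀ y ∈ Y, ∀ i < m,
    (R i x y ↔ wb ((c y).1 (c' x)).1 i) ∧ (R i y x ↔ wb ((c y).1 (c' x)).2 i)

/-- sort 0 -/
def G0 (X : Set A) (c : A → WQ m) : Prop :=
  ∀ c' : A → Fin 2, (∀ x ∈ X, c' x = wc (c x)) → LNLC 2 m R X c'

/-- sort 1 -/
def G1 (Y : Set A) (c : A → WQ m) : Prop :=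
  (∀ y ∈ Y, (c y).2.2 = 0) ∧ ∀ (X : Set A) (c' : A → Fin 2), LNLC 2 m R X c' → Disjoint X Y →
    Rl R X Y c' c → ∀ c'' : A → Fin 2, (∀ x ∈ X, c'' x = c' x) → (∀ y ∈ Y, c'' y = (c y).2.1) →
      LNLC 2 m R (X ∪ Y) c''

/-- sort 2 -/
def G2 (Y : Set A) (c : A → WQ m) : Prop :=
  ∀ (X : Set A) (c' : A → Fin 2), LNLC 2 m R X c' → Disjoint X Y →
    Rl R X Y c' c → ∀ c'' : A → Fin 2, (∀ x ∈ X, c'' x = 0) →
      (∀ y ∈ Y, c'' y = if (c y).2.2 = 2 then (c y).2.1 else 0) → LNLC 2 m R (X ∪ Y) c''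

/-- all sorts -/
structure Gd (s : Fin 6) (X : Set A) (c : A → WQ m) : Prop where
  g0 : s = 0 → G0 R X c ∧ ∀ x ∈ X, (c x).2.2 ≠ 2
  g1 : s = 1 → G1 R X c
  g2 : s = 2 → G2 R X c ∧ ∀ x ∈ X, (c x).2.2 ≠ 1
  g3 : s = 3 → ∃ b, X = {b} ∧ (c b).2.2 = 0
  g4 : s = 4 → ∃ b, X = {b} ∧ (c b).2.2 = 2
  g5 : s = 5 → ∃ c' : A → Fin 2, LNLC 2 m R X c'

/-- one element is added -/
theorem step1 {X : Set A} {b : A} {c' : A → Fin 2} {c : A → WQ m} (h : LNLC 2 m R X c')
    (hd : b ∉ X) (hR : Rl R X {b} c' c) (f : Fin 2 → Fin 2) (c'' : A → Fin 2)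
    (hc : ∀ x ∈ X, c'' x = f (c' x)) : LNLC 2 m R (X ∪ {b}) c'' :=
  LNLC.op X b c'' c' h hd (fun i p => wb ((c b).1 p).1 i) (fun i p => wb ((c b).1 p).2 i) f
    (fun a ha i hi => hR a ha b rfl i hi) hc

/-- two steps: a part of sort 1 and an element -/
theorem step2 {X Y : Set A} {b : A} {c' c₁' : A → Fin 2} {c c₁ : A → WQ m} (h : LNLC 2 m R X c')
    (hY : G1 R Y c₁) (hd : Disjoint X (Y ∪ {b})) (hb : b ∉ Y) (hR : Rl R X (Y ∪ {b}) c' c)
    (hRb : ∀ a ∈ Y, ∀ i < m, (R i a b ↔ wb ((c b).1 (c₁ a).2.1).1 i) ∧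
      (R i b a ↔ wb ((c b).1 (c₁ a).2.1).2 i))
    (hc : ∀ y ∈ Y, c y = c₁ y) (hc₁' : ∀ x ∈ X, c₁' x = c' x)
    (hc₂' : ∀ y ∈ Y, c₁' y = (c₁ y).2.1) (f : Fin 2 → Fin 2) (c'' : A → Fin 2)
    (hcc : ∀ x ∈ X ∪ Y, c'' x = f (c₁' x)) : LNLC 2 m R (X ∪ (Y ∪ {b})) c'' := by
  have hdY : Disjoint X Y := hd.mono_right Set.subset_union_left
  have hbX : b ∉ X := fun hx => Set.disjoint_left.1 hd hx (Or.inr rfl)
  have h1 : LNLC 2 m R (X ∪ Y) c₁' := by
    refine hY.2 X c' h hdY ?_ c₁' hc₁' hc₂'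
    intro x hx y hy i hi
    rw [← hc y hy]
    exact hR x hx y (Or.inl hy) i hi
  have h2 : Rl R (X ∪ Y) {b} c₁' c := by
    intro x hx y hy i hi
    rw [Set.mem_singleton_iff] at hy
    subst hy
    rcases hx with hx | hx
    · rw [hc₁' x hx]
      exact hR x hx y (Or.inr rfl) i hi
    · rw [hc₂' x hx]
      exact hRb x hx i hi
  have h3 := step1 R h1 (by rintro (hx | hx); exacts [hbX hx, hb hx]) h2 f c'' hcc
  rw [Set.union_assoc] at h3
  exact h3

/-- the special colouring of `X ∪ Y` -/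
noncomputable def gl (Y : Set A) (c' : A → Fin 2) (c : A → WQ m) : A → Fin 2 := fun a =>
  if a ∈ Y then (c a).2.1 else c' a

theorem gl_mem {Y : Set A} {c' : A → Fin 2} {c : A → WQ m} {a : A} (h : a ∈ Y) :
    gl Y c' c a = (c a).2.1 := if_pos h

theorem gl_not {X Y : Set A} {c' : A → Fin 2} {c : A → WQ m} (hd : Disjoint X Y) {a : A}
    (h : a ∈ X) : gl Y c' c a = c' a := if_neg fun h' => Set.disjoint_left.1 hd h h'

/-- only structures of linear NLC-width 2 are generated -/
theorem gen_gd (P : ℕ → A → Prop) {s : Fin 6} {X : Set A} {c : A → WQ m}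
    (h : (wG m).Gen m P R s X c) : Gd R s X c := by
  induction h with
  | pt x hx a c hc hP hR =>
    obtain ⟨k, V, p, u, v, hk, hx'⟩ := mem_pts hx
    have hck : (c a).2.2 = k := by
      rw [hc, hx']
    have hself : ∀ c'' : A → Fin 2, LNLC 2 m R {a} c'' := fun c'' => LNLC.pt a c''
    refine ⟨fun hs => ?_, fun hs => ?_, fun hs => ?_, fun hs => ?_, fun hs => ?_, fun hs => ?_⟩
    · have hk1 : k = 1 := (kind_of x.s k hk).1 hs
      refine ⟨fun c' _ => hself c', ?_⟩
      rintro x rfl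
      rw [hck, hk1]
      decide
    · have hk1 : k = 0 := (kind_of x.s k hk).2.1 hs
      refine ⟨?_, ?_⟩
      · rintro y rfl
        rw [hck, hk1]
      · intro X c' hX hd hRl c'' h1 h2
        exact step1 R hX (fun h => Set.disjoint_left.1 hd h rfl) hRl id c'' h1
    · have hk1 : k = 2 := (kind_of x.s k hk).2.2.1 hs
      refine ⟨?_, ?_⟩
      · intro X c' hX hd hRl c'' h1 h2
        exact step1 R hX (fun h => Set.disjoint_left.1 hd h rfl) hRl (fun _ => 0) c'' h1
      · rintro x rfl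
        rw [hck, hk1]
        decide
    · have hk1 : k = 0 := (kind_of x.s k hk).2.2.2.1 hs
      exact ⟨a, rfl, hck.trans hk1⟩
    · have hk1 : k = 2 := (kind_of x.s k hk).2.2.2.2 hs
      exact ⟨a, rfl, hck.trans hk1⟩
    · exact ⟨fun _ => 0, hself _⟩
  | op o ho X Y c c₁ c₂ h₁ h₂ hd hD hR hX hY ih₁ ih₂ =>
    unfold wG at ho
    simp only [List.mem_cons, List.not_mem_nil, or_false] at ho
    rcases ho with rfl | rfl | rfl | rfl | rfl
    · obtain ⟨b, rfl, hb⟩ := ih₂.g3 rfl
      have g := ih₁.g1 rfl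
      have hbX : b ∉ X := fun h => Set.disjoint_left.1 hd h rfl
      have hXc : ∀ a ∈ X, c a = c₁ a := hX
      have hbc : c b = c₂ b := hY b rfl
      refine ⟨fun hs => absurd (show (1 : Fin 6) = 0 from hs) (by decide),
        fun _ => ?_,
        fun hs => absurd (show (1 : Fin 6) = 2 from hs) (by decide),
        fun hs => absurd (show (1 : Fin 6) = 3 from hs) (by decide),
        fun hs => absurd (show (1 : Fin 6) = 4 from hs) (by decide),
        fun hs => absurd (show (1 : Fin 6) = 5 from hs) (by decide)⟩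
      refine ⟨?_, ?_⟩
      · rintro y (hy | rfl)
        · rw [hXc y hy]
          exact g.1 y hy
        · rw [hbc]
          exact hb
      · intro Z c' hZ hZd hRl c'' h1 h2
        have hdZ : Disjoint Z X := hZd.mono_right Set.subset_union_left
        refine step2 R (c₁' := c'') hZ g hZd hbX hRl ?_ hXc h1 ?_ id c'' (fun _ _ => rfl)
        · intro a ha i hi
          rw [hbc]
          exact hR a ha b rfl i hi
        · intro y hy
          rw [h2 y (Or.inl hy), hXc y hy]
    · obtain ⟨b, rfl, hb⟩ := ih₂.g4 rfl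
      have g := ih₁.g1 rfl
      have hbX : b ∉ X := fun h => Set.disjoint_left.1 hd h rfl
      have hXc : ∀ a ∈ X, c a = c₁ a := hX
      have hbc : c b = c₂ b := hY b rfl
      refine ⟨fun hs => absurd (show (2 : Fin 6) = 0 from hs) (by decide),
        fun hs => absurd (show (2 : Fin 6) = 1 from hs) (by decide),
        fun _ => ?_,
        fun hs => absurd (show (2 : Fin 6) = 3 from hs) (by decide),
        fun hs => absurd (show (2 : Fin 6) = 4 from hs) (by decide),
        fun hs => absurd (show (2 : Fin 6) = 5 from hs) (by decide)⟩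
      refine ⟨?_, ?_⟩
      · intro Z c' hZ hZd hRl c'' h1 h2
        have hdZ : Disjoint Z X := hZd.mono_right Set.subset_union_left
        refine step2 R (c₁' := gl X c' c₁) hZ g hZd hbX hRl ?_ hXc (fun x hx => gl_not hdZ hx)
          (fun y hy => gl_mem hy) (fun _ => 0) c'' ?_
        · intro a ha i hi
          rw [hbc]
          exact hR a ha b rfl i hi
        · rintro x (hx | hx)
          · exact h1 x hx
          · rw [h2 x (Or.inl hx), hXc x hx, g.1 x hx, if_neg (by decide)]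
      · rintro x (hx | rfl)
        · rw [hXc x hx, g.1 x hx]
          decide
        · rw [hbc, hb]
          decide
    · have g := ih₁.g0 rfl
      have g' := ih₂.g2 rfl
      refine ⟨fun _ => ?_,
        fun hs => absurd (show (0 : Fin 6) = 1 from hs) (by decide),
        fun hs => absurd (show (0 : Fin 6) = 2 from hs) (by decide),
        fun hs => absurd (show (0 : Fin 6) = 3 from hs) (by decide),
        fun hs => absurd (show (0 : Fin 6) = 4 from hs) (by decide),
        fun hs => absurd (show (0 : Fin 6) = 5 from hs) (by decide)⟩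
      refine ⟨?_, ?_⟩
      · intro c'' hc''
        refine g'.1 X (fun a => wc (c₁ a)) (g.1 _ fun _ _ => rfl) hd
          (fun x hx y hy i hi => hR x hx y hy i hi) c'' ?_ ?_
        · intro x hx
          rw [hc'' x (Or.inl hx), hX x hx]
          unfold wc
          by_cases hk : (c₁ x).2.2 = 1
          · simp [hk]
          · simp [hk]
        · intro y hy
          rw [hc'' y (Or.inr hy), hY y hy]
          have h1 := g'.2 y hy
          unfold wc
          by_cases hk : (c₂ y).2.2 = 2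
          · simp [hk]
          · simp [hk, h1]
      · rintro x (hx | hx)
        · rw [hX x hx]
          have h2 := g.2 x hx
          by_cases hk : (c₁ x).2.2 = 1
          · simp [hk]
          · simp [hk, h2]
        · rw [hY x hx]
          by_cases hk : (c₂ x).2.2 = 2
          · simp [hk]
          · simp [hk]
    · have g := ih₁.g0 rfl
      have g' := ih₂.g2 rfl
      refine ⟨fun hs => absurd (show (5 : Fin 6) = 0 from hs) (by decide),
        fun hs => absurd (show (5 : Fin 6) = 1 from hs) (by decide),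
        fun hs => absurd (show (5 : Fin 6) = 2 from hs) (by decide),
        fun hs => absurd (show (5 : Fin 6) = 3 from hs) (by decide),
        fun hs => absurd (show (5 : Fin 6) = 4 from hs) (by decide),
        fun _ => ?_⟩
      refine ⟨fun a => if a ∈ Y then (if (c₂ a).2.2 = 2 then (c₂ a).2.1 else 0) else 0, ?_⟩
      refine g'.1 X (fun a => wc (c₁ a)) (g.1 _ fun _ _ => rfl) hd
        (fun x hx y hy i hi => hR x hx y hy i hi) _ ?_ ?_
      · intro x hx
        exact if_neg fun h => Set.disjoint_left.1 hd hx h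
      · intro y hy
        exact if_pos hy
    · have g := ih₁.g0 rfl
      have g' := ih₂.g1 rfl
      refine ⟨fun hs => absurd (show (5 : Fin 6) = 0 from hs) (by decide),
        fun hs => absurd (show (5 : Fin 6) = 1 from hs) (by decide),
        fun hs => absurd (show (5 : Fin 6) = 2 from hs) (by decide),
        fun hs => absurd (show (5 : Fin 6) = 3 from hs) (by decide),
        fun hs => absurd (show (5 : Fin 6) = 4 from hs) (by decide),
        fun _ => ?_⟩
      refine ⟨gl Y (fun a => wc (c₁ a)) c₂, ?_⟩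
      exact g'.2 X (fun a => wc (c₁ a)) (g.1 _ fun _ _ => rfl) hd
        (fun x hx y hy i hi => hR x hx y hy i hi) _ (fun x hx => gl_not hd hx)
        (fun y hy => gl_mem hy)

end

/-- WGB -/
theorem pf_WGB : Pool.Agent.H46.CH.T_WGB := by
  rintro m A _ P R ⟨c, hc⟩
  exact (gen_gd R P hc).g5 rfl

end Pool.Agent.H5.CHE
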