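import Pool.Agent.H46.CH.AS

/-!
# Row WGS of the board `chs_modules`: the grammar for linear NLC-width 2 changes few colours
-/

set_option autoImplicit false

open Classical Pool.Agent.H8.VR Pool.Agent.H69.VR Pool.Agent.H46.CH

namespace Pool.Agent.H5.CHE

/-- the kinds of one-element structures of the grammar -/
theorem mem_pts {m : ℕ} {x : Pt (Fin 6) (WQ m)} (hx : x ∈ (wG m).pts) :
    ∃ (k : Fin 3) (V : Fin 2 → (Fin m → Bool) × (Fin m → Bool)) (a : Fin 2)
      (u v : Fin m → Bool), ((x.s, k) = (0, 1) ∨ (x.s, k) = (1, 0) ∨ (x.s, k) = (2, 2) ∨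
        (x.s, k) = (3, 0) ∨ (x.s, k) = (4, 2) ∨ (x.s, k) = (5, 0)) ∧
      x = { s := x.s, q := (V, a, k), un := wb u, lp := wb v } := by
  unfold wG at hx
  obtain ⟨s, hs, hx⟩ := List.mem_flatMap.1 hx
  obtain ⟨y, -, rfl⟩ := List.mem_map.1 hx
  refine ⟨s.2, y.1.1, y.1.2, y.2.1, y.2.2, ?_, rfl⟩
  simpa only [List.mem_cons, List.not_mem_nil, or_false] using hs

/-- the one-element structures of the grammar -/
theorem pts_mem {m : ℕ} (s : Fin 6) (k : Fin 3) (V : Fin 2 → (Fin m → Bool) × (Fin m → Bool))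
    (a : Fin 2) (u v : Fin m → Bool) (h : (s, k) = (0, 1) ∨ (s, k) = (1, 0) ∨ (s, k) = (2, 2) ∨
      (s, k) = (3, 0) ∨ (s, k) = (4, 2) ∨ (s, k) = (5, 0)) :
    ({ s := s, q := (V, a, k), un := wb u, lp := wb v } : Pt (Fin 6) (WQ m)) ∈ (wG m).pts := by
  unfold wG
  refine List.mem_flatMap.2 ⟨(s, k), ?_, List.mem_map.2 ⟨((V, a), u, v), ?_, rfl⟩⟩
  · simpa only [List.mem_cons, List.not_mem_nil, or_false] using h
  · exact Finset.mem_toList.2 (Finset.mem_univ _)

/-- a sum with at most one summand -/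
theorem fs_le_one {Q : Type} [Fintype Q] (P : Q → Prop) (f : Q → ℕ) (q₀ : Q)
    (h : ∀ q, P q → f q ≠ 0 → q = q₀) (h0 : f q₀ ≤ 1) : fs P f ≤ 1 := by
  unfold fs
  refine le_trans (Finset.sum_le_sum_of_ne_zero (t := {q₀}) ?_) ?_
  · intro q hq hf
    exact Finset.mem_singleton.2 (h q (Finset.mem_filter.1 hq).2 hf)
  · rw [Finset.sum_singleton]
    exact h0

/-- a sum without summands -/
theorem fs_eq_zero {Q : Type} [Fintype Q] (P : Q → Prop) (f : Q → ℕ)
    (h : ∀ q, P q → f q = 0) : fs P f = 0 := by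
  unfold fs
  exact Finset.sum_eq_zero fun q hq => h q (Finset.mem_filter.1 hq).2

/-- the bounds for the numbers of the elements of the kinds 1 and 2 -/
def WB (m : ℕ) (s : Fin 6) (q : WQ m) : ℕ :=
  if (s, q.2.2) = ((0 : Fin 6), (1 : Fin 3)) ∨ (s, q.2.2) = ((2 : Fin 6), (2 : Fin 3)) ∨
    (s, q.2.2) = ((4 : Fin 6), (2 : Fin 3)) ∨ (s, q.2.2) = ((5 : Fin 6), (1 : Fin 3)) then 1 else 0

theorem WB_le (m : ℕ) (s : Fin 6) (q : WQ m) : WB m s q ≤ 1 := by
  unfold WB
  split_ifs
  · exact le_rfl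
  · exact Nat.zero_le _

/-- the union of a left part and a right part -/
theorem join_le (m : ℕ) (t u : Fin 6) (ht : t = 1 ∨ t = 2) (hu : u = 0 ∨ u = 5) (q : WQ m)
    (hq : ¬ q.2.2 = 0) :
    fs (fun q' : WQ m => ¬ q'.2.2 = 0 ∧
        ((q'.1, q'.2.1, if q'.2.2 = 1 then 0 else q'.2.2) : WQ m) = q) (WB m 0) +
      fs (fun q' : WQ m => ¬ q'.2.2 = 0 ∧
        ((q'.1, q'.2.1, if q'.2.2 = 2 then 1 else q'.2.2) : WQ m) = q) (WB m t) ≤ WB m u q := by
  have h1 : fs (fun q' : WQ m => ¬ q'.2.2 = 0 ∧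
      ((q'.1, q'.2.1, if q'.2.2 = 1 then 0 else q'.2.2) : WQ m) = q) (WB m 0) = 0 := by
    refine fs_eq_zero _ _ ?_
    rintro q' ⟨h, rfl⟩
    unfold WB
    rw [if_neg]
    intro h2
    simp only [Prod.mk.injEq] at h2
    rcases h2 with h2 | h2 | h2 | h2
    · simp [h2.2] at hq
    · exact absurd h2.1 (by decide)
    · exact absurd h2.1 (by decide)
    · exact absurd h2.1 (by decide)
  rw [h1, zero_add]
  by_cases hk : q.2.2 = 1
  · have h2 : WB m u q = 1 := by
      unfold WB
      rw [if_pos]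
      rcases hu with rfl | rfl
      · exact Or.inl (by rw [hk])
      · exact Or.inr (Or.inr (Or.inr (by rw [hk])))
    rw [h2]
    refine fs_le_one _ _ (q.1, q.2.1, 2) ?_ (WB_le _ _ _)
    rintro q' ⟨h, rfl⟩ hf
    have h3 : q'.2.2 = 2 := by
      by_contra h4
      apply hf
      unfold WB
      rw [if_neg]
      intro h5
      simp only [Prod.mk.injEq] at h5
      rcases h5 with h5 | h5 | h5 | h5
      · rcases ht with rfl | rfl
        · exact absurd h5.1 (by decide)
        · exact absurd h5.1 (by decide)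
      · exact h4 h5.2
      · exact h4 h5.2
      · rcases ht with rfl | rfl
        · exact absurd h5.1 (by decide)
        · exact absurd h5.1 (by decide)
    exact Prod.ext rfl (Prod.ext rfl h3)
  · have h3 : fs (fun q' : WQ m => ¬ q'.2.2 = 0 ∧
        ((q'.1, q'.2.1, if q'.2.2 = 2 then 1 else q'.2.2) : WQ m) = q) (WB m t) = 0 := by
      refine fs_eq_zero _ _ ?_
      rintro q' ⟨h, rfl⟩
      by_cases h4 : q'.2.2 = 2
      · simp [h4] at hk
      · unfold WB
        rw [if_neg]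
        intro h5
        simp only [Prod.mk.injEq] at h5
        rcases h5 with h5 | h5 | h5 | h5
        · rcases ht with rfl | rfl
          · exact absurd h5.1 (by decide)
          · exact absurd h5.1 (by decide)
        · exact h4 h5.2
        · exact h4 h5.2
        · rcases ht with rfl | rfl
          · exact absurd h5.1 (by decide)
          · exact absurd h5.1 (by decide)
    rw [h3]
    exact Nat.zero_le _

/-- adding an element to a right part -/
theorem add_le (m : ℕ) (t u : Fin 6) (h : t = 3 ∧ u = 1 ∨ t = 4 ∧ u = 2) (q : WQ m) :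
    fs (fun q' : WQ m => ¬ q'.2.2 = 0 ∧ q' = q) (WB m 1) +
      fs (fun q' : WQ m => ¬ q'.2.2 = 0 ∧ q' = q) (WB m t) ≤ WB m u q := by
  have h1 : fs (fun q' : WQ m => ¬ q'.2.2 = 0 ∧ q' = q) (WB m 1) = 0 := by
    refine fs_eq_zero _ _ ?_
    intro q' _
    unfold WB
    rw [if_neg]
    intro h2
    simp only [Prod.mk.injEq] at h2
    rcases h2 with h2 | h2 | h2 | h2 <;> exact absurd h2.1 (by decide)
  rw [h1, zero_add]
  rcases h with ⟨rfl, rfl⟩ | ⟨rfl, rfl⟩
  · have h3 : fs (fun q' : WQ m => ¬ q'.2.2 = 0 ∧ q' = q) (WB m 3) = 0 := by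
      refine fs_eq_zero _ _ ?_
      intro q' _
      unfold WB
      rw [if_neg]
      intro h2
      simp only [Prod.mk.injEq] at h2
      rcases h2 with h2 | h2 | h2 | h2 <;> exact absurd h2.1 (by decide)
    rw [h3]
    exact Nat.zero_le _
  · by_cases hk : q.2.2 = 2
    · have h2 : WB m 2 q = 1 := by
        unfold WB
        rw [if_pos]
        exact Or.inr (Or.inl (by rw [hk]))
      rw [h2]
      exact fs_le_one _ _ q (fun q' h _ => h.2) (WB_le _ _ _)
    · have h3 : fs (fun q' : WQ m => ¬ q'.2.2 = 0 ∧ q' = q) (WB m 4) = 0 := by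
        refine fs_eq_zero _ _ ?_
        rintro q' ⟨-, rfl⟩
        unfold WB
        rw [if_neg]
        intro h2
        simp only [Prod.mk.injEq] at h2
        rcases h2 with h2 | h2 | h2 | h2
        · exact absurd h2.1 (by decide)
        · exact absurd h2.1 (by decide)
        · exact hk h2.2
        · exact absurd h2.1 (by decide)
      rw [h3]
      exact Nat.zero_le _

/-- positive numbers -/
theorem pair_pos {x y : ℕ} (hx : 0 < x) : 0 < Nat.pair x y :=
  lt_of_lt_of_le hx (Nat.left_le_pair x y)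

/-- WGS -/
theorem pf_WGS : Pool.Agent.H46.CH.T_WGS := by
  intro m
  refine ⟨inferInstance, fun q => q.2.2 = 0, WB m, ?_, ?_⟩
  · intro x hx hq
    obtain ⟨k, V, a, u, v, hk, hx'⟩ := mem_pts hx
    have hxq : x.q.2.2 = k := by rw [hx']
    have hq : ¬ x.q.2.2 = 0 := hq
    rw [hxq] at hq
    unfold WB
    rw [if_pos]
    rw [hxq]
    rcases hk with h | h | h | h | h | h
    · exact Or.inl h
    · exact absurd (Prod.mk.inj h).2 hq
    · exact Or.inr (Or.inl h)
    · exact absurd (Prod.mk.inj h).2 hq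
    · exact Or.inr (Or.inr (Or.inl h))
    · exact absurd (Prod.mk.inj h).2 hq
  · intro o ho
    unfold wG at ho
    simp only [List.mem_cons, List.not_mem_nil, or_false] at ho
    rcases ho with rfl | rfl | rfl | rfl | rfl
    · refine ⟨fun q _ => ⟨rfl, rfl⟩, fun q _ => ?_, fun x y hx _ => pair_pos hx⟩
      exact add_le m 3 1 (Or.inl ⟨rfl, rfl⟩) q
    · refine ⟨fun q _ => ⟨rfl, rfl⟩, fun q _ => ?_, fun x y hx _ => pair_pos hx⟩
      exact add_le m 4 2 (Or.inr ⟨rfl, rfl⟩) q
    · refine ⟨fun q hq => ⟨?_, ?_⟩, fun q hq => ?_, fun x y hx _ => pair_pos hx⟩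
      · refine Prod.ext rfl (Prod.ext rfl ?_)
        simp [hq]
      · refine Prod.ext rfl (Prod.ext rfl ?_)
        simp [hq]
      · exact join_le m 2 0 (Or.inr rfl) (Or.inl rfl) q hq
    · refine ⟨fun q hq => ⟨?_, ?_⟩, fun q hq => ?_, fun x y hx _ => pair_pos hx⟩
      · refine Prod.ext rfl (Prod.ext rfl ?_)
        simp [hq]
      · refine Prod.ext rfl (Prod.ext rfl ?_)
        simp [hq]
      · exact join_le m 2 5 (Or.inr rfl) (Or.inr rfl) q hq
    · refine ⟨fun q hq => ⟨?_, ?_⟩, fun q hq => ?_, fun x y hx _ => pair_pos hx⟩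
      · refine Prod.ext rfl (Prod.ext rfl ?_)
        simp [hq]
      · refine Prod.ext rfl (Prod.ext rfl ?_)
        simp [hq]
      · exact join_le m 1 5 (Or.inl rfl) (Or.inr rfl) q hq

end Pool.Agent.H5.CHE
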